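import Mathlib
import Pool.Agent.N575.ZT.Sum4

/-!
# 3SUM with real numbers: zero-error random and nondeterministic decision trees

The input is a list of `3 m` distinct real numbers (`Idx m → ℝ`, three blocks of `m` numbers); the
question is whether `a + b = c` for three numbers at different places (`HasSum`). The definitions
are in `Pool/Agent/N575/ZT/Model.lean` (`Conf`, `Alg`, for general families of linear forms) and
`Pool/Agent/N575/ZT/Sum.lean` (`sumConf`):

* `threeSum m` (`= sumConf (-1) _ m`): the forms are `w (0, i) + w (1, j) - w (2, i + j)` for
  `i + j < m` (`(threeSum m).val w (i, j)`), and the degenerate inputs `(threeSum m).pot (α, β, δ)` are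
  three arithmetic progressions `α + i δ`, `β + j δ`, `α + β + k δ`, for which these forms are zero;
* `(threeSum m).Shallow f`: the integer valued function `f` of the input is locally constant near
  `pot x` for a dense set of `x = (α, β, δ)`, for example the sign of every analytic function
  which does not vanish at all degenerate inputs (part 5): comparisons between two numbers, all the
  other tests `a + b = c`, all linear forms and polynomials except those which vanish at all
  degenerate inputs;
* `(threeSum m).Regular f`: the real function `f` of the input is, for generic (a comeagre set of)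
  `x`, differentiable at `pot x`, with a value or a derivative which is not zero; for example every
  analytic function which does not vanish of the second order at all degenerate inputs (part 4), and
  so every linear form which is not zero;
* `Alg (threeSum m) Bool`: decision trees; a node asks for the value of a shallow function (`free`),
  for the sign of one of the forms `w (0, i) + w (1, j) - w (2, i + j)` (`test`), or for the sign of a
  regular function (`smooth`). The trees may be infinite, but all branches are finite;
* `run t w`: the answer; `tests t w`, `smooths t w`: the numbers of nodes `test` and `smooth` on the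
  path of the computation. Nodes `free` are not counted.

Nondeterministic trees: a finite number of trees which never accept lists with `a + b = c`; every
other list should be accepted by one of them. There is a list such that all computations which accept
it make `T` tests of forms and `q` regular tests with `m (m + 1) ≤ 2 T + 10 m q` (part 1). This holds in
particular for the means for random trees without errors (part 2), the algorithms of the problem.
Without regular tests the bound `T ≥ m (m + 1) / 2` is attained by exhaustive search (part 3), and a
saving of a constant factor needs `c m` linear tests; `O (m (log m) ^ 2)` suffice (Kane, Lovett and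
Moran). Erickson's quadratic bound is for deterministic trees which test only forms with three
numbers, the bounds of Ailon and Chazelle are for few terms.

Proof. Near a generic degenerate input there remain the tests of the forms and linear tests for a
direction `u`, for which we take a generic direction with nearly equal positive values of all forms.
A computation with `q` linear tests on `u` fixes the values of `q` linear forms. The vectors of the
`m (m + 1) / 2` forms have together a projection of squared length at most `3 m q` to the span of these
linear forms, so for all but `5 m q` forms `τ` the direction can be changed, within the kernel of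
the linear forms, such that `τ` becomes zero and all others remain positive.
-/

set_option autoImplicit false

namespace Pool.Agent.Results.MP_13bec0_lc.NondeterministicTrees

open Pool.Agent.N575.ZT

/-- the configuration for 3SUM: the forms `w (0, i) + w (1, j) - w (2, i + j)`, `i + j < m`, and the
degenerate inputs `α + i δ`, `β + j δ`, `α + β + k δ` -/
noncomputable def threeSum (m : ℕ) : Conf (Idx m) (Fin 3) (Tpl m) := sumConf (-1) (by decide) m

/-- `a + b = c` for three numbers at different places -/
def HasSum {m : ℕ} (w : Idx m → ℝ) : Prop :=
  ∃ a b c, a ≠ b ∧ a ≠ c ∧ b ≠ c ∧ w a + w b = w c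

/-- the mean of `Y` -/
def mean {ι : Type} [Fintype ι] (p : ι → ℝ) (Y : ι → ℕ) : ℝ := ∑ i, p i * Y i

theorem hasSum_iff {m : ℕ} (w : Idx m → ℝ) : (∃ a b c, a ≠ b ∧ a ≠ c ∧ b ≠ c ∧
    w a + w b + ((-1 : SignType) : ℝ) * w c = 0) ↔ HasSum w := by
  unfold HasSum
  simp only [SignType.coe_neg_one, neg_one_mul, ← sub_eq_add_neg, sub_eq_zero]

theorem part {m : ℕ} {ι : Type} [Finite ι] (t : ι → Alg (threeSum m) Bool)
    (ht : ∀ i w, Function.Injective w → (t i).run w = true → ¬ HasSum w) :
    ∃ w, Function.Injective w ∧ ¬ HasSum w ∧ ∀ i, (t i).run w = true →
      m * (m + 1) ≤ 2 * (t i).tests w + 10 * m * (t i).smooths w := by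
  obtain ⟨w, h1, h2, h3⟩ := sum_nondet (s := -1) (hs := by decide) id t (by
    intro w hw hz i hi
    rw [hasSum_iff] at hz
    exact ht i w hw hi hz)
  rw [hasSum_iff] at h2
  exact ⟨w, h1, h2, h3⟩

/-- 1. Finitely many trees which do not accept lists with `a + b = c`. There is a list of `3 m`
distinct numbers without `a + b = c` such that every tree which accepts it makes at least as many
tests as stated. 2. Random decision trees without errors. 3. Exhaustive search. 4. An analytic
function is regular if its value or its derivative is not zero for some degenerate input. 5. The sign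
of an analytic function is shallow if its value is not zero for some degenerate input. -/
theorem result :
    (∀ (m : ℕ) (ι : Type) [Finite ι] (t : ι → Alg (threeSum m) Bool),
      (∀ i w, Function.Injective w → (t i).run w = true → ¬ HasSum w) →
      ∃ w, Function.Injective w ∧ ¬ HasSum w ∧ ∀ i, (t i).run w = true →
        m * (m + 1) ≤ 2 * (t i).tests w + 10 * m * (t i).smooths w) ∧
    (∀ (m : ℕ) (ι : Type) [Fintype ι] (p : ι → ℝ), (∀ i, 0 ≤ p i) → ∑ i, p i = 1 →
      ∀ t : ι → Alg (threeSum m) Bool,
      (∀ i w, Function.Injective w → ((t i).run w = true ↔ ¬ HasSum w)) →
      ∃ w, Function.Injective w ∧ ¬ HasSum w ∧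
        (m * (m + 1) : ℝ) ≤ 2 * mean p (fun i => (t i).tests w) +
          10 * m * mean p (fun i => (t i).smooths w)) ∧
    (∀ m : ℕ, ∃ t : Alg (threeSum m) Bool, ∀ w, (t.run w = true ↔ ¬ HasSum w) ∧
      2 * t.tests w ≤ m * (m + 1) ∧ t.smooths w = 0) ∧
    (∀ (m : ℕ) (f : (Idx m → ℝ) → ℝ), AnalyticOnNhd ℝ f Set.univ →
      (∃ x, f ((threeSum m).pot x) ≠ 0 ∨ fderiv ℝ f ((threeSum m).pot x) ≠ 0) →
      (threeSum m).Regular f) ∧
    (∀ (m : ℕ) (f : (Idx m → ℝ) → ℝ), AnalyticOnNhd ℝ f Set.univ →
      (∃ x, f ((threeSum m).pot x) ≠ 0) →
      (threeSum m).Shallow fun w => ((SignType.sign (f w) : SignType) : ℤ)) := by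
  refine ⟨fun m ι _ t ht => part t ht, ?_, ?_, fun m f hf h => regular_analytic hf h,
    fun m f hf h => shallow_sign hf h⟩
  · intro m ι _ p hp hp1 t ht
    obtain ⟨w, h1, h2, h3⟩ := part t fun i w hw h => (ht i w hw).1 h
    refine ⟨w, h1, h2, ?_⟩
    have h4 : ∀ i, (m * (m + 1) : ℝ) ≤ 2 * (t i).tests w + 10 * m * (t i).smooths w := by
      intro i
      exact_mod_cast h3 i ((ht i w h1).2 h2)
    calc (m * (m + 1) : ℝ) = ∑ i, p i * (m * (m + 1) : ℝ) := by
          rw [← Finset.sum_mul, hp1, one_mul]
      _ ≤ ∑ i, p i * (2 * (t i).tests w + 10 * m * (t i).smooths w) :=
          Finset.sum_le_sum fun i _ => mul_le_mul_of_nonneg_left (h4 i) (hp i)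
      _ = 2 * mean p (fun i => (t i).tests w) + 10 * m * mean p (fun i => (t i).smooths w) := by
          unfold mean
          rw [Finset.mul_sum, Finset.mul_sum, ← Finset.sum_add_distrib]
          exact Finset.sum_congr rfl fun i _ => by ring
  · intro m
    obtain ⟨t, ht⟩ := sum_upper (-1) (by decide) m
    refine ⟨t, fun w => ?_⟩
    obtain ⟨h1, h2, h3⟩ := ht w
    rw [hasSum_iff] at h1
    exact ⟨h1, h2, h3⟩

end Pool.Agent.Results.MP_13bec0_lc.NondeterministicTrees
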