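import Mathlib
import Pool.Agent.N452.TF.ThreeSum

/-!
# 3SUM: circuits over formulas of bilinear maps of real vectors

The input consists of `2 n` distinct integers of absolute value at most `(2 n) ^ 3` (`Valid`); is one
of them the sum of two others (`threeSum`)? The items of the input are each of the first `n` numbers,
and the list of the last `n` numbers.

*Formulas* (`Fml`). The wires carry vectors of dimension `d` with real coordinates (of unlimited
precision). The leaves are vectors, or matrices which are applied to a vector (`act`), which depend in
an arbitrary way on one item, or on `w` words of length `c log₂ (2 n)`, each of which is an arbitrary
function of one item. The gates are sums, arbitrary bilinear maps of two vectors (`bil`), tests of the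
sign of a linear form with two arbitrary vectors as results (`test`), and gates `sym` of any fan-in
whose value is an arbitrary function of the number of the inputs for which a linear form is positive.
So products of matrices of order `d` (weighted automata, also quantum automata, with unbounded error)
and the contractions of tensor networks whose intermediate tensors have at most `d` entries are
formulas of this kind; the case `d = 1` contains all real formulas.

*Circuits* (`Circuit`) compute shared bits; each bit is the result of a branching program whose tests
are formulas, and the leaves may also read the bits computed before. A leaf which reads an item pays
its price: one for each of the first `n` numbers, nothing for the list of the last `n` numbers, and for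
a shared bit the number of those of the first `n` numbers on which the bit depends. The cost is the sum
of the prices of all leaves, plus the number of inner nodes of the branching programs, plus the number
of wires which lead to gates `sym`. All other gates and constants are free.

We show that random circuits with error probability at most `1 / 3` have cost
`s ≥ n ^ 2 / (9000 (w c + d ^ 2))`. So an algorithm of this kind which makes only `n ^ (2 - ε)` readings
computes with vectors of dimension `n ^ (ε / 2)` up to constants, or with shared bits which depend on
many of the numbers.

Proof. Each of the first `n` numbers can ask for about `n log₂ n / 7` bits which are encoded in the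
list of the last `n` numbers (helper697). We count the functions of this number which arise when the
other items are fixed. If `r` leaves see it or bits which depend on it, there are `O (r)` places at which
other parts enter, and the function of the vector at such a place is an affine map or a function of
the sign of an affine form, so it is given by `O (d ^ 2)` parameters; Warren's theorem bounds the number
of sign patterns, and the values of the shared bits are treated one after the other
(`Pool.Agent.N452.TF.Core`, `Pool.Agent.N452.TF.Prog`; Nechiporuk's method).
-/

set_option autoImplicit false

namespace Pool.Agent.Results.MP_13bec0_lc.TensorCircuits

open Pool.Agent.TH697.Form (IsProb)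
open Pool.Agent.TH697.Row (ApproximatesOn)
open Pool.Agent.TH697.Form.ThreeSum (Item Valid threeSum)
open Pool.Agent.N452.TF (Circuit)
open Pool.Agent.N452.TF.Xor (pairs)

theorem result : ∀ n c w d : ℕ, 1000 ≤ n → 1 ≤ c → 1 ≤ w → 1 ≤ d →
    ∀ (Ω : Type) [Fintype Ω] (μ : Ω → ℝ), IsProb μ →
      ∀ (s : ℕ) (C : Ω → Circuit (Option (Fin n)) (Item n n) w ((2 * n) ^ c) d),
        (∀ ω, (C ω).circ.cost (pairs n) ≤ s) →
        ApproximatesOn μ (fun ω => (C ω).eval) (Valid n n) (threeSum n n) →
        (n : ℝ) ^ 2 ≤ 9000 * (w * c + (d : ℝ) ^ 2) * s :=
  fun _ _ _ _ hn hc hw hd _ _ μ hμ s C hs hC =>
    Pool.Agent.N452.TF.ThreeSum.three_sum hn hc hw hd μ hμ s C hs hC

end Pool.Agent.Results.MP_13bec0_lc.TensorCircuits
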